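import Pool.Agent.H.MP_e84edf_an.A

namespace Pool.Agent.Results.MP_e84edf_an.No
open MeasureTheory ComplexConjugate AddCircle Matrix
open scoped InnerProductSpace

abbrev T : Type := AddCircle (1 : ℝ)
noncomputable abbrev mu : Measure T := haarAddCircle
noncomputable abbrev L (n : ℕ) : Type := Lp (EuclideanSpace ℂ (Fin n)) 2 mu

/-- The function representing a class. -/
noncomputable def fn {n : ℕ} (f : L n) : T → EuclideanSpace ℂ (Fin n) := f

/-- The functions `z ^ k v` with `k < 0`. -/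
def Neg (n : ℕ) : Set (L n) :=
  {f | ∃ k : ℤ, k < 0 ∧ ∃ v : EuclideanSpace ℂ (Fin n), fn f =ᵐ[mu] fun x => fourier k x • v}

/-- The form of multiplication by `Φ`. -/
noncomputable def form {n : ℕ} (Φ : T → Matrix (Fin n) (Fin n) ℂ) (g f : L n) : ℂ :=
  ∫ x, (Φ x *ᵥ (fn f x).ofLp) ⬝ᵥ star (fn g x).ofLp ∂mu

section
variable {E : Type} [NormedAddCommGroup E] [InnerProductSpace ℂ E]

/-- `A` is the compression of the form `q` to the closed subspace. -/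
def Compr (K : Submodule ℂ E) (q : E → E → ℂ) (A : K → K) : Prop :=
  ∀ f g : K, ⟪(g : E), (A f : E)⟫_ℂ = q g f

def Normal [CompleteSpace E] (A : E →L[ℂ] E) : Prop := IsStarNormal A

def Subnormal (A : E →L[ℂ] E) : Prop :=
  ∃ (K : Type) (_ : NormedAddCommGroup K) (_ : InnerProductSpace ℂ K) (_ : CompleteSpace K)
    (N : K →L[ℂ] K) (J : E →ₗᵢ[ℂ] K), Normal N ∧ ∀ f, N (J f) = J (A f)

def SubNotNormal (E : Type) [NormedAddCommGroup E] [InnerProductSpace ℂ E] [CompleteSpace E]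
    (P : (E → E) → Prop) : Prop := ∃ A : E →L[ℂ] E, P A ∧ Subnormal A ∧ ¬ Normal A

/-- The compression of `q` to the orthogonal complement of `S` is subnormal and not normal. -/
def Bad [CompleteSpace E] (S : Set E) (q : E → E → ℂ) : Prop :=
  SubNotNormal (Submodule.span ℂ S)ᗮ (Compr (Submodule.span ℂ S)ᗮ q)
end

/-- Finite Blaschke–Potapov products. -/
def BP {n : ℕ} (B : ℂ → Matrix (Fin n) (Fin n) ℂ) : Prop :=
  ∃ V ∈ unitaryGroup (Fin n) ℂ, ∃ l : List (ℂ × Matrix (Fin n) (Fin n) ℂ),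
    (∀ p ∈ l, ‖p.1‖ < 1 ∧ p.2 ≠ 0 ∧ p.2ᴴ = p.2 ∧ p.2 * p.2 = p.2) ∧
    ∀ z, B z = V * (l.map fun p => ((z - p.1) / (1 - conj p.1 * z)) • p.2 + (1 - p.2)).prod

theorem result : ∃ (n : ℕ) (Φ : T → Matrix (Fin n) (Fin n) ℂ) (B : ℂ → Matrix (Fin n) (Fin n) ℂ),
    (∀ i j, MemLp (fun x => Φ x i j) ⊤ mu) ∧ BP B ∧
    (∀ x, Φ x = B (fourier 1 x) * (Φ x)ᴴ) ∧ Bad (Neg n) (form Φ) ∧
    ¬ ∀ i j, ∀ k : ℤ, k < 0 → fourierCoeff (fun x => Φ x i j) k = 0 := by
  refine ⟨2, H.MP_e84edf_an.Ph, fun z => !![z ^ 2, 0; 0, 1],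
    H.MP_e84edf_an.Ph_bd, ⟨1, one_mem _, [(0, !![1, 0; 0, 0]), (0, !![1, 0; 0, 0])], ?_, fun z => ?_⟩,
    fun x => ?_, ⟨H.MP_e84edf_an.Tp, H.MP_e84edf_an.toep, ⟨_, _, _, inferInstance,
      H.MP_e84edf_an.N, H.MP_e84edf_an.Hd.subtypeₗᵢ,
      H.MP_e84edf_an.N_normal, H.MP_e84edf_an.N_ext⟩, H.MP_e84edf_an.not_normal⟩,
    fun h => H.MP_e84edf_an.Ph_coeff (h 1 1 _ (by norm_num))⟩
  · have : (!![1, 0; 0, 0] : Matrix (Fin 2) (Fin 2) ℂ)ᴴ = !![1, 0; 0, 0] := by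
      ext i j; fin_cases i <;> fin_cases j <;> simp
    simp [this]
    exact ⟨fun h => by simpa using congrFun (congrFun h 0) 0, by ext i; fin_cases i <;> rfl⟩
  · ext i j; fin_cases i <;> fin_cases j <;> simp [sq, one_fin_two]
  · have h : (fourier 1 x : ℂ) * conj (fourier 1 x) = 1 := by
      rw [← fourier_neg, ← fourier_add]; simp
    ext i j
    fin_cases i <;> fin_cases j <;>
      simp only [H.MP_e84edf_an.Ph, fourier_neg, mul_apply, Fin.sum_univ_two, conjTranspose_apply] <;>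
      generalize fourier 1 x = z at * <;> simp [sq, mul_assoc, h, add_comm]

end Pool.Agent.Results.MP_e84edf_an.No
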